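import Pool.Agent.W402.HI.Defs

set_option autoImplicit false

open Metric

namespace Pool.Agent.W32.HI.G3

theorem main : Pool.Agent.W402.HI.P_G3 := by
  intro H _ _ _ N E hN hE hne hsp z hz
  have hzs : z ∉ spectrum ℂ N := fun h => hz (hsp h)
  have hzr : z ∈ resolventSet ℂ N := by
    by_contra h
    exact hzs h
  refine ⟨hzr, ?_⟩
  have hd : 0 < infDist z E := (hE.isClosed.notMem_iff_infDist_pos hne).1 hz
  have hcont : ContinuousOn (fun x : ℂ => (z - x)⁻¹) (spectrum ℂ N) := by
    apply ContinuousOn.inv₀ (by fun_prop)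
    intro x hx h
    apply hzs
    have : z = x := by linear_combination h
    rw [this]; exact hx
  have h1 : cfc (fun x : ℂ => z - x) N = algebraMap ℂ (H →L[ℂ] H) z - N := by
    rw [cfc_sub (fun _ : ℂ => z) (fun x : ℂ => x) N (by fun_prop) (by fun_prop), cfc_const z N,
      cfc_id' ℂ N]
  have h2 : (algebraMap ℂ (H →L[ℂ] H) z - N) * cfc (fun x : ℂ => (z - x)⁻¹) N = 1 := by
    rw [← h1, ← cfc_mul (fun x : ℂ => z - x) (fun x : ℂ => (z - x)⁻¹) N (by fun_prop) hcont,
      ← cfc_one ℂ N]
    apply cfc_congr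
    intro x hx
    have : z - x ≠ 0 := by
      intro h
      apply hzs
      have : z = x := by linear_combination h
      rw [this]; exact hx
    show (z - x) * (z - x)⁻¹ = 1
    exact mul_inv_cancel₀ this
  have h3 : resolvent N z = cfc (fun x : ℂ => (z - x)⁻¹) N := by
    rw [spectrum.resolvent_eq hzr]
    apply Units.inv_eq_of_mul_eq_one_right
    exact h2
  rw [h3]
  apply norm_cfc_le (by positivity)
  intro x hx
  rw [norm_inv, one_div]
  apply inv_anti₀ hd
  have := infDist_le_dist_of_mem (x := z) (hsp hx)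
  rwa [dist_eq_norm] at this

end Pool.Agent.W32.HI.G3
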